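import Pool.Agent.W629.Q4.Ineq

/-!
# The profile of a counterexample to Turán's (3,4)-conjecture

Let `G` be a 3-graph on `n` vertices such that every four vertices contain an edge of `G`, and let
`N j` be the number of four-element vertex sets containing exactly `j` edges of `G`. If `G` has at
most `(2/27) n^3` edges, the conjectured minimum, then the four densities `24 N j / n^4` and the
mean square deviation of the codegrees lie in short explicit intervals (the values for Turán's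
construction being `5/27, 0, 2/9, 16/27`).
-/

set_option autoImplicit false
open Finset

namespace Pool.Agent.Results.MP_466853_co.ExtremalProfile

/-- `G` is a family of three-element sets and every four vertices contain a member of `G`. -/
def Covering {n : ℕ} (G : Finset (Finset (Fin n))) : Prop :=
  (∀ s ∈ G, s.card = 3) ∧ ∀ S : Finset (Fin n), S.card = 4 → ∃ s ∈ G, s ⊆ S

/-- The number of four-element vertex sets containing exactly `j` members of `G`. -/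
def quads {n : ℕ} (G : Finset (Finset (Fin n))) (j : ℕ) : ℕ :=
  (((univ : Finset (Fin n)).powersetCard 4).filter fun S =>
    (G.filter fun s => s ⊆ S).card = j).card

/-- The codegree of `p`: the number of members of `G` containing `p`. -/
def codeg {n : ℕ} (G : Finset (Finset (Fin n))) (p : Finset (Fin n)) : ℕ :=
  (G.filter fun s => p ⊆ s).card

open Pool.Agent.W629.Q4

theorem quads_eq {n : ℕ} (G : Finset (Finset (Fin n))) (j : ℕ) : N4 G j = quads G j := rfl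

theorem codeg_eq {n : ℕ} (G : Finset (Finset (Fin n))) (p : Finset (Fin n)) :
    cod G p = codeg G p := rfl

/-- polynomial part of the codegree statement -/
theorem poly {n b : ℝ} (hn : 1000 ≤ n) (h1 : 5 / 54 - 1 / (2 * n) ≤ b) (h2 : b ≤ 1367 / 10000) :
    n ^ 4 / 600 - 39 * n ^ 3 ≤ (6192 * b - 339.3183) / 1500 * n ^ 4 - 18 * b ^ 2 * n ^ 4 := by
  have hn0 : 0 < n := by linarith
  set t := 1 / (2 * n) with ht
  have ht0 : 0 < t := by positivity
  have htn : t * n = 1 / 2 := by rw [ht]; field_simp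
  have h3 : 0 ≤ (b - (5 / 54 - t)) * (1367 / 10000 - b) :=
    mul_nonneg (by linarith) (by linarith)
  have h4 : 1 / 600 - 3 * t ≤ (6192 * b - 339.3183) / 1500 - 18 * b ^ 2 := by
    nlinarith
  have h5 : (0 : ℝ) ≤ n ^ 4 := by positivity
  have h6 := mul_le_mul_of_nonneg_right h4 h5
  have h7 : t * n ^ 4 = n ^ 3 / 2 := by
    calc t * n ^ 4 = (t * n) * n ^ 3 := by ring
      _ = _ := by rw [htn]; ring
  have h8 : 0 < n ^ 3 := by positivity
  nlinarith

/-- squares against the mean, in polynomial form -/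
theorem variance {n b P S1 S2 ν : ℝ} (hn : 1000 ≤ n) (hP : P = n * (n - 1) / 2)
    (hS1 : S1 = 3 * (b * n ^ 3)) (hb0 : 0 ≤ b) (h1 : 5 / 54 - 1 / (2 * n) ≤ b)
    (h2 : b ≤ 1367 / 10000)
    (hS2 : 6192 * (n * (b * n ^ 3)) ≤ 3393183 / 10000 * n ^ 4 + 1500 * S2) :
    n ^ 4 / 600 - 40 * n ^ 3 ≤ S2 - 2 * ν * S1 + P * ν ^ 2 := by
  have hn0 : 0 < n := by linarith
  have hP0 : 0 < P := by rw [hP]; have : 0 < n - 1 := by linarith
                         positivity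
  have h3 := poly hn h1 h2
  have h4 : S1 ^ 2 ≤ P * (18 * b ^ 2 * n ^ 4 + n ^ 3) := by
    rw [hS1, hP]
    have h5 : 9 * b ^ 2 ≤ 1 / 4 := by nlinarith
    have h6 : 0 ≤ n ^ 5 := by positivity
    have h7 := mul_le_mul_of_nonneg_right h5 h6
    have h8 : 1000 * n ^ 4 ≤ n * n ^ 4 := mul_le_mul_of_nonneg_right hn (by positivity)
    have h9 : 0 ≤ n ^ 4 := by positivity
    nlinarith
  have h5 : S1 ^ 2 / P ≤ 18 * b ^ 2 * n ^ 4 + n ^ 3 := by
    rw [div_le_iff₀ hP0]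
    linarith
  have h6 : -(S1 ^ 2 / P) ≤ - 2 * ν * S1 + P * ν ^ 2 := by
    have h7 : - 2 * ν * S1 + P * ν ^ 2 + S1 ^ 2 / P = (P * ν - S1) ^ 2 / P := by
      field_simp
      ring
    have h8 : 0 ≤ (P * ν - S1) ^ 2 / P := by positivity
    linarith
  nlinarith

/-- the codegree statement -/
theorem codegrees {n : ℕ} {G : Finset (Finset (Fin n))} (hG : Covering G)
    (hg : (G.card : ℝ) ≤ 2 / 27 * (n : ℝ) ^ 3) (μ : ℝ) :
    (n : ℝ) ^ 4 / 600 - 40 * (n : ℝ) ^ 3 ≤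
      ∑ p ∈ (univ : Finset (Fin n)).powersetCard 2, ((codeg G p : ℝ) - μ) ^ 2 := by
  have hs : 0 ≤ ∑ p ∈ (univ : Finset (Fin n)).powersetCard 2, ((codeg G p : ℝ) - μ) ^ 2 :=
    sum_nonneg fun p _ => sq_nonneg _
  rcases Nat.lt_or_ge n 1000 with hn | hn
  · have h1 : (n : ℝ) ≤ 1000 := by exact_mod_cast hn.le
    have h2 : (0 : ℝ) ≤ (n : ℝ) ^ 3 := by positivity
    have h3 := mul_le_mul_of_nonneg_right h1 h2
    nlinarith
  have hn' : (1000 : ℝ) ≤ n := by exact_mod_cast hn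
  have hn0 : (0 : ℝ) < n := by linarith
  have h3 := compl3_card3 G
  have hK := compl3_free hG.2 hG.1
  have hC := ineqC h3 hK
  have hE := real_edges h3 hK
  have hcard : ((compl3 G).card : ℝ) + G.card = (n.choose 3 : ℝ) := by
    exact_mod_cast compl3_card hG.1
  have hch := choose3 n
  have hY := ineqY h3 hK (by omega)
  set h : ℝ := ((compl3 G).card : ℝ) with hh
  set S2 := ∑ p ∈ (univ : Finset (Fin n)).powersetCard 2, (cod (compl3 G) p : ℝ) ^ 2 with hS2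
  have hh0 : 0 ≤ h := Nat.cast_nonneg _
  have hn3 : (n : ℝ) ^ 3 ≠ 0 := by positivity
  have h1 : h = h / (n : ℝ) ^ 3 * (n : ℝ) ^ 3 := (div_mul_cancel₀ h hn3).symm
  set b := h / (n : ℝ) ^ 3 with hb
  have hb0 : 0 ≤ b := div_nonneg hh0 (by positivity)
  have hS1 : ∑ p ∈ (univ : Finset (Fin n)).powersetCard 2, (cod (compl3 G) p : ℝ) =
      3 * (b * (n : ℝ) ^ 3) := by
    rw [← h1, hh]
    exact_mod_cast sum_cod h3
  have hsum : ∑ p ∈ (univ : Finset (Fin n)).powersetCard 2, ((codeg G p : ℝ) - μ) ^ 2 =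
      S2 - 2 * ((n : ℝ) - 2 - μ) * (3 * (b * (n : ℝ) ^ 3)) +
        ((n : ℝ) * ((n : ℝ) - 1) / 2) * ((n : ℝ) - 2 - μ) ^ 2 := by
    have e1 : ∀ p ∈ (univ : Finset (Fin n)).powersetCard 2, ((codeg G p : ℝ) - μ) ^ 2 =
        (cod (compl3 G) p : ℝ) ^ 2 - 2 * ((n : ℝ) - 2 - μ) * (cod (compl3 G) p : ℝ) +
          ((n : ℝ) - 2 - μ) ^ 2 := by
      intro p hp
      have e2 := compl3_cod hG.1 p (mem_powersetCard.mp hp).2
      have e3 : (cod (compl3 G) p : ℝ) + codeg G p = (n : ℝ) - 2 := by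
        rw [← codeg_eq]
        have : ((n - 2 : ℕ) : ℝ) = (n : ℝ) - 2 := by
          rw [Nat.cast_sub (by omega)]; norm_num
        rw [← this]
        exact_mod_cast e2
      have e4 : (codeg G p : ℝ) = (n : ℝ) - 2 - cod (compl3 G) p := by linarith
      rw [e4]
      ring
    rw [sum_congr rfl e1, sum_add_distrib, sum_sub_distrib, ← mul_sum, hS1, sum_const,
      card_powersetCard, card_univ, Fintype.card_fin, nsmul_eq_mul, Nat.cast_choose_two]
  rw [hsum]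
  have hN0 : (0 : ℝ) ≤ N4 (compl3 G) 0 := by positivity
  have hN1 : (0 : ℝ) ≤ N4 (compl3 G) 1 := by positivity
  refine variance hn' rfl rfl hb0 ?_ ?_ ?_
  · have h5 : 5 / 54 * (n : ℝ) ^ 3 - (n : ℝ) ^ 2 / 2 ≤ h := by nlinarith
    rw [hb, le_div_iff₀ (by positivity)]
    have h6 : (5 / 54 - 1 / (2 * (n : ℝ))) * (n : ℝ) ^ 3 = 5 / 54 * (n : ℝ) ^ 3 - (n : ℝ) ^ 2 / 2 := by
      field_simp
    rw [h6]
    exact h5
  · have h5 : ((n : ℝ) - 3) * h ≤ 23 / 216 * (n : ℝ) ^ 4 := by nlinarith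
    have h6 : ((n : ℝ) - 3) * b ≤ 23 / 216 * n := by
      have h7 : (((n : ℝ) - 3) * b) * (n : ℝ) ^ 3 ≤ (23 / 216 * n) * (n : ℝ) ^ 3 := by
        calc (((n : ℝ) - 3) * b) * (n : ℝ) ^ 3 = ((n : ℝ) - 3) * (b * (n : ℝ) ^ 3) := by ring
          _ = ((n : ℝ) - 3) * h := by rw [← h1]
          _ ≤ 23 / 216 * (n : ℝ) ^ 4 := h5
          _ = _ := by ring
      exact le_of_mul_le_mul_right h7 (by positivity)
    by_contra hcon
    push Not at hcon
    nlinarith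
  · rw [← h1]
    linarith

/-- Let `G` be a 3-graph on `n` vertices such that every four vertices contain an edge of `G`, with
at most `(2/27) n^3` edges. Then the numbers of four-element sets with `4, 3, 2, 1` edges and the
quadratic deviation of the codegrees from any number `μ` satisfy the stated bounds. -/
theorem result (n : ℕ) (G : Finset (Finset (Fin n))) (hG : Covering G)
    (hg : (G.card : ℝ) ≤ 2 / 27 * (n : ℝ) ^ 3) :
    (119 / 1000 * (n : ℝ) ^ 4 - 40 * (n : ℝ) ^ 3 ≤ 24 * (quads G 4 : ℝ) ∧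
      24 * (quads G 4 : ℝ) ≤ 5 / 27 * (n : ℝ) ^ 4 + 40 * (n : ℝ) ^ 3) ∧
    24 * (quads G 3 : ℝ) ≤ 732 / 10000 * (n : ℝ) ^ 4 + 40 * (n : ℝ) ^ 3 ∧
    (2 / 9 * (n : ℝ) ^ 4 - 40 * (n : ℝ) ^ 3 ≤ 24 * (quads G 2 : ℝ) ∧
      24 * (quads G 2 : ℝ) ≤ 2913 / 10000 * (n : ℝ) ^ 4 + 40 * (n : ℝ) ^ 3) ∧
    (528 / 1000 * (n : ℝ) ^ 4 - 40 * (n : ℝ) ^ 3 ≤ 24 * (quads G 1 : ℝ) ∧
      24 * (quads G 1 : ℝ) ≤ 16 / 27 * (n : ℝ) ^ 4 + 40 * (n : ℝ) ^ 3) ∧
    ∀ μ : ℝ, (n : ℝ) ^ 4 / 600 - 40 * (n : ℝ) ^ 3 ≤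
      ∑ p ∈ (univ : Finset (Fin n)).powersetCard 2, ((codeg G p : ℝ) - μ) ^ 2 := by
  have h3 := compl3_card3 G
  have hK := compl3_free hG.2 hG.1
  have hC := ineqC h3 hK
  have h0 := ineqP0 h3 hK
  have h1 := ineqP1 h3 hK
  have h2 := ineqP2 h3 hK
  have h4 := ineqP3 h3 hK
  have hE := real_edges h3 hK
  have hT := real_total h3 hK
  have hcard : ((compl3 G).card : ℝ) + G.card = (n.choose 3 : ℝ) := by
    exact_mod_cast compl3_card hG.1
  have hch := choose3 n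
  have q0 : N4 (compl3 G) 0 = quads G 4 := compl3_N4 hG.1 4 0 rfl
  have q1 : N4 (compl3 G) 1 = quads G 3 := compl3_N4 hG.1 3 1 rfl
  have q2 : N4 (compl3 G) 2 = quads G 2 := compl3_N4 hG.1 2 2 rfl
  have q3 : N4 (compl3 G) 3 = quads G 1 := compl3_N4 hG.1 1 3 rfl
  rw [q0, q1, q2, q3] at hC hT
  rw [q1, q2, q3] at h0 h1 h2 h4 hE
  have p0 : (0 : ℝ) ≤ quads G 4 := by positivity
  have p1 : (0 : ℝ) ≤ quads G 3 := by positivity
  have p2 : (0 : ℝ) ≤ quads G 2 := by positivity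
  have p3 : (0 : ℝ) ≤ quads G 1 := by positivity
  have hg0 : (0 : ℝ) ≤ G.card := by positivity
  have hnn : (0 : ℝ) ≤ 11 * (n : ℝ) ^ 2 - 6 * n := by
    have e1 : n ≤ n ^ 2 := by nlinarith [Nat.zero_le n, Nat.le_mul_self n]
    have e2 : (n : ℝ) ≤ (n : ℝ) ^ 2 := by exact_mod_cast e1
    have e3 : (0 : ℝ) ≤ (n : ℝ) ^ 2 := by positivity
    linarith
  have hn3 : (0 : ℝ) ≤ (n : ℝ) ^ 3 := by positivity
  have hn4 : (0 : ℝ) ≤ (n : ℝ) ^ 4 := by positivity
  have hprod : ((n : ℝ) - 3) * (G.card : ℝ) = ((n : ℝ) ^ 4 - 6 * (n : ℝ) ^ 3 + 11 * (n : ℝ) ^ 2 -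
      6 * n) / 6 - ((quads G 3 : ℝ) + 2 * quads G 2 + 3 * quads G 1) := by
    rw [hE]
    have e1 : ((compl3 G).card : ℝ) = ((n : ℝ) ^ 3 - 3 * (n : ℝ) ^ 2 + 2 * n) / 6 - G.card := by
      linarith
    rw [e1]
    ring
  have hle : ((n : ℝ) - 3) * (G.card : ℝ) ≤ 2 / 27 * (n : ℝ) ^ 4 := by
    have e1 : (n : ℝ) * (G.card : ℝ) ≤ (n : ℝ) * (2 / 27 * (n : ℝ) ^ 3) :=
      mul_le_mul_of_nonneg_left hg (by positivity)
    nlinarith
  rw [hprod] at hle
  refine ⟨⟨?_, ?_⟩, ?_, ⟨?_, ?_⟩, ⟨?_, ?_⟩, codegrees hG hg⟩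
  · linarith
  · linarith
  · linarith
  · linarith
  · linarith
  · linarith
  · linarith

end Pool.Agent.Results.MP_466853_co.ExtremalProfile
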