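import Pool.Agent.W650.TurTwo

set_option autoImplicit false

/-!
Let every four vertices of the 3-graph `T` contain an edge, and let all the triples of the set `A`
be edges. Then `T` has at least `C(n,3) - a b √(a² + b²) / 2 - b³ / (6 √2)` edges, where `a = |A|`
and `b = n - a`. The last term is not needed if all the triples of the complement of `A` are edges.
In particular Turán's bound `4/9 C(n,3)` holds if `a ≥ 0.62 n`, or if the vertices are covered by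
two cliques of `T` (in that case the density is at least `1 - 3 √2 / 8 - o(1) > 0.469`).
-/

namespace Pool.Agent.Results.MP_466853_co.LargeClique

theorem result : ∀ (n : ℕ) (T : Finset (Finset (Fin n))),
    (∀ e ∈ T, e.card = 3) →
    (∀ S : Finset (Fin n), S.card = 4 → ∃ e ∈ T, e ⊆ S) →
    ∀ A : Finset (Fin n), (∀ e : Finset (Fin n), e ⊆ A → e.card = 3 → e ∈ T) →
      (n.choose 3 : ℝ) - A.card * Aᶜ.card * √((A.card : ℝ) ^ 2 + (Aᶜ.card : ℝ) ^ 2) / 2 -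
        (Aᶜ.card : ℝ) ^ 3 / (6 * √2) ≤ T.card ∧
      ((∀ e : Finset (Fin n), e ⊆ Aᶜ → e.card = 3 → e ∈ T) →
        (n.choose 3 : ℝ) - A.card * Aᶜ.card * √((A.card : ℝ) ^ 2 + (Aᶜ.card : ℝ) ^ 2) / 2 ≤
          T.card ∧ (n.choose 3 : ℝ) - √2 / 16 * (n : ℝ) ^ 3 ≤ T.card) ∧
      (1000 ≤ n →
        ((∀ e : Finset (Fin n), e ⊆ Aᶜ → e.card = 3 → e ∈ T) ∨ 31 * n ≤ 50 * A.card) →
        4 / 9 * (n.choose 3 : ℝ) ≤ T.card) := by
  intro n T h3 hT A hA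
  refine ⟨Pool.Agent.W650.TurTwo.main1 T hT h3 A hA, fun hB => ?_,
    fun hn h => Pool.Agent.W650.TurTwo.final T hT h3 A hA hn h⟩
  have h1 := Pool.Agent.W650.TurTwo.main2 T hT h3 A hA hB
  refine ⟨h1, le_trans ?_ h1⟩
  have ha0 : 0 ≤ (A.card : ℝ) := Nat.cast_nonneg _
  have hb0 : 0 ≤ (Aᶜ.card : ℝ) := Nat.cast_nonneg _
  have hab : (A.card : ℝ) + (Aᶜ.card : ℝ) = n := by
    have := Finset.card_add_card_compl A
    rw [Fintype.card_fin] at this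
    exact_mod_cast this
  have h2 := Pool.Agent.W650.TurTwo.mono (n : ℝ) _ _ ((n : ℝ) ^ 2 / 4) ha0 hb0 hab
    (by rw [← hab]; nlinarith [sq_nonneg ((A.card : ℝ) - (Aᶜ.card : ℝ))])
    (by nlinarith [sq_nonneg (n : ℝ)])
  have h4 : (A.card : ℝ) * (Aᶜ.card : ℝ) * √((A.card : ℝ) ^ 2 + (Aᶜ.card : ℝ) ^ 2) ≤
      √2 / 8 * (n : ℝ) ^ 3 := by
    apply abs_le_of_sq_le_sq' _ (by positivity) |>.2
    have e : (√2 / 8 * (n : ℝ) ^ 3) ^ 2 = ((n : ℝ) ^ 2 / 4) ^ 2 * ((n : ℝ) ^ 2 - 2 * ((n : ℝ) ^ 2 / 4)) := by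
      have h5 : √2 ^ 2 = (2 : ℝ) := Real.sq_sqrt (by norm_num)
      calc (√2 / 8 * (n : ℝ) ^ 3) ^ 2 = √2 ^ 2 / 64 * (n : ℝ) ^ 6 := by ring
        _ = _ := by rw [h5]; ring
    rw [e]
    exact h2
  linarith

end Pool.Agent.Results.MP_466853_co.LargeClique
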