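import Pool.Agent.W38.TO.Main
import Pool.Agent.W38.TO.Types

/-!
# Turán's (3,4)-conjecture for 3-graphs encoded by oriented graphs

A 3-graph `H` is encoded by an oriented graph `R` on the same vertices when it depends only on the
isomorphism type of the three-vertex oriented graph induced by `R` on a triple whether the triple
is an edge of `H`. There are seven types (no arc, one arc, in-star, path, out-star, transitive
triangle, cyclic triangle), so 128 possible rules. The Turán bound `5/9` is proved here for every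
`K_4^3`-free 3-graph encoded by an oriented graph, for all rules but four.
-/

set_option autoImplicit false
open Finset
open scoped Classical

namespace Pool.Agent.Results.MP_466853_co.OrientedEncodings

/-- `R` is (the arc relation of) an oriented graph: no loops, and at most one arc between two
vertices. -/
def IsOriented {n : ℕ} (R : Fin n → Fin n → Prop) : Prop := ∀ x y, R x y → ¬ R y x

/-- The 3-graph `H` has no four vertices spanning all four triples. -/
def K43Free {n : ℕ} (H : Finset (Finset (Fin n))) : Prop :=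
  ∀ S : Finset (Fin n), S.card = 4 → ∃ s ⊆ S, s.card = 3 ∧ s ∉ H

/-- `H` is encoded by `R`: two triples which induce isomorphic oriented graphs in `R` (by the
bijection which `f` induces from `s` to its image) are both edges or both non-edges of `H`. -/
def EncodedBy {n : ℕ} (H : Finset (Finset (Fin n))) (R : Fin n → Fin n → Prop) : Prop :=
  ∀ (s : Finset (Fin n)) (f : Fin n → Fin n), s.card = 3 → Set.InjOn f (s : Set (Fin n)) →
    (∀ x ∈ s, ∀ y ∈ s, (R x y ↔ R (f x) (f y))) → (s ∈ H ↔ s.image f ∈ H)

/-- no arc between `x` and `y` -/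
def NonAdj {n : ℕ} (R : Fin n → Fin n → Prop) (x y : Fin n) : Prop := ¬ R x y ∧ ¬ R y x

/-- some edge of `H` spans no arc -/
def EmptyEdge {n : ℕ} (H : Finset (Finset (Fin n))) (R : Fin n → Fin n → Prop) : Prop :=
  ∃ a b c, ({a, b, c} : Finset (Fin n)) ∈ H ∧ NonAdj R a b ∧ NonAdj R a c ∧ NonAdj R b c

/-- some edge of `H` spans exactly one arc -/
def OneArcEdge {n : ℕ} (H : Finset (Finset (Fin n))) (R : Fin n → Fin n → Prop) : Prop :=
  ∃ a b c, ({a, b, c} : Finset (Fin n)) ∈ H ∧ R a b ∧ NonAdj R a c ∧ NonAdj R b c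

/-- some edge `{a,b,c}` of `H` spans exactly the arcs `a → c`, `b → c` -/
def InStarEdge {n : ℕ} (H : Finset (Finset (Fin n))) (R : Fin n → Fin n → Prop) : Prop :=
  ∃ a b c, ({a, b, c} : Finset (Fin n)) ∈ H ∧ NonAdj R a b ∧ R a c ∧ R b c

/-- some edge `{a,b,c}` of `H` spans exactly the arcs `a → b`, `b → c` -/
def PathEdge {n : ℕ} (H : Finset (Finset (Fin n))) (R : Fin n → Fin n → Prop) : Prop :=
  ∃ a b c, ({a, b, c} : Finset (Fin n)) ∈ H ∧ R a b ∧ NonAdj R a c ∧ R b c

/-- some edge `{a,b,c}` of `H` spans exactly the arcs `a → b`, `a → c` -/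
def OutStarEdge {n : ℕ} (H : Finset (Finset (Fin n))) (R : Fin n → Fin n → Prop) : Prop :=
  ∃ a b c, ({a, b, c} : Finset (Fin n)) ∈ H ∧ R a b ∧ R a c ∧ NonAdj R b c

/-- some edge `{a,b,c}` of `H` spans the arcs `a → b`, `a → c`, `b → c` -/
def TransitiveEdge {n : ℕ} (H : Finset (Finset (Fin n))) (R : Fin n → Fin n → Prop) : Prop :=
  ∃ a b c, ({a, b, c} : Finset (Fin n)) ∈ H ∧ R a b ∧ R a c ∧ R b c

open Pool.Agent.W38.TO Pool.Agent.H122R2.FdF in
/-- **Turán's (3,4)-bound for encoded 3-graphs.** Let `H` be a `K_4^3`-free 3-graph on `n` vertices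
encoded by an oriented graph `R`. Suppose that no edge of `H` spans exactly one arc of `R`, or some
edge of `H` spans no arc, or `H` has in-star edges exactly if it has out-star edges, or `H` has a
transitive edge, or `H` has no path edge. Then `H` has at most `5/54 n^3 + 2000 n^2` edges, that
is, density at most `5/9 + O(1/n)`. (The types of edges left out are one arc, path, in-star and
possibly cyclic, and the same with out-star in place of in-star.) -/
theorem result {n : ℕ} (R : Fin n → Fin n → Prop) (hR : IsOriented R)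
    (H : Finset (Finset (Fin n))) (h3 : ∀ e ∈ H, e.card = 3) (hK : K43Free H)
    (hE : EncodedBy H R)
    (hx : ¬ OneArcEdge H R ∨ EmptyEdge H R ∨ (InStarEdge H R ↔ OutStarEdge H R) ∨
      TransitiveEdge H R ∨ ¬ PathEdge H R) :
    (H.card : ℝ) ≤ 5 / 54 * (n : ℝ) ^ 3 + 2000 * (n : ℝ) ^ 2 := by
  have e0 : HasType R H 0 ↔ EmptyEdge H R := by
    refine hasType_iff hR h3 (fun a b c => NonAdj R a b ∧ NonAdj R a c ∧ NonAdj R b c)
      (x := 0) (y := 0) (z := 0) (by norm_num) (by norm_num) (by norm_num) (by decide +kernel)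
      fun a b c => ?_
    rw [rl_zero, rl_zero, rl_zero]
    exact Iff.rfl
  have e1 : HasType R H 1 ↔ OneArcEdge H R := by
    refine hasType_iff hR h3 (fun a b c => R a b ∧ NonAdj R a c ∧ NonAdj R b c)
      (x := 1) (y := 0) (z := 0) (by norm_num) (by norm_num) (by norm_num) (by decide +kernel)
      fun a b c => ?_
    rw [rl_one, rl_zero, rl_zero]
    exact Iff.rfl
  have e2 : HasType R H 2 ↔ InStarEdge H R := by
    refine hasType_iff hR h3 (fun a b c => NonAdj R a b ∧ R a c ∧ R b c)
      (x := 0) (y := 1) (z := 1) (by norm_num) (by norm_num) (by norm_num) (by decide +kernel)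
      fun a b c => ?_
    rw [rl_zero, rl_one, rl_one]
    exact Iff.rfl
  have e3 : HasType R H 3 ↔ PathEdge H R := by
    refine hasType_iff hR h3 (fun a b c => R a b ∧ NonAdj R a c ∧ R b c)
      (x := 1) (y := 0) (z := 1) (by norm_num) (by norm_num) (by norm_num) (by decide +kernel)
      fun a b c => ?_
    rw [rl_one, rl_zero, rl_one]
    exact Iff.rfl
  have e4 : HasType R H 4 ↔ OutStarEdge H R := by
    refine hasType_iff hR h3 (fun a b c => R a b ∧ R a c ∧ NonAdj R b c)
      (x := 1) (y := 1) (z := 0) (by norm_num) (by norm_num) (by norm_num) (by decide +kernel)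
      fun a b c => ?_
    rw [rl_one, rl_one, rl_zero]
    exact Iff.rfl
  have e5 : HasType R H 5 ↔ TransitiveEdge H R := by
    refine hasType_iff hR h3 (fun a b c => R a b ∧ R a c ∧ R b c)
      (x := 1) (y := 1) (z := 1) (by norm_num) (by norm_num) (by norm_num) (by decide +kernel)
      fun a b c => ?_
    rw [rl_one, rl_one, rl_one]
  refine main_rule hR h3 hK (alike_of hR hE) ?_
  rw [e0, e1, e2, e3, e4, e5]
  exact hx

end Pool.Agent.Results.MP_466853_co.OrientedEncodings
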